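import Mathlib
import Pool.Agent.R164.WS

/-!
# Maximal concurrency of lines in the Wang–Shi split

For every triangle and every `d ≥ 2`, every interior point of the triangle lies on at most `d + 1`
lines of the Wang–Shi split `WS_d`.
-/

set_option autoImplicit false

open AffineMap

namespace Pool.Agent.Results.MP_e74ad6_co.WangShiConcurrency

open Pool.Agent.R164.WS

/-- the Euclidean plane -/
abbrev Plane := EuclideanSpace ℝ (Fin 2)

/-- the points dividing the segment `PQ` into `d` segments of equal length, with its endpoints -/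
def divPts (d : ℕ) (P Q : Plane) : Set Plane :=
  {X | ∃ i : ℕ, i ≤ d ∧ X = lineMap P Q ((i : ℝ) / d)}

/-- the division points on the boundary of the triangle `ABC` -/
def marked (d : ℕ) (A B C : Plane) : Set Plane :=
  divPts d A B ∪ divPts d B C ∪ divPts d C A

/-- `P` and `Q` lie on a common side of the triangle `ABC` -/
def CommonSide (A B C P Q : Plane) : Prop :=
  (P ∈ segment ℝ A B ∧ Q ∈ segment ℝ A B) ∨ (P ∈ segment ℝ B C ∧ Q ∈ segment ℝ B C) ∨
    (P ∈ segment ℝ C A ∧ Q ∈ segment ℝ C A)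

/-- the lines of the Wang–Shi split `WS_d` of the triangle `ABC` -/
def wsLines (d : ℕ) (A B C : Plane) : Set (AffineSubspace ℝ Plane) :=
  {ℓ | ∃ P ∈ marked d A B C, ∃ Q ∈ marked d A B C, ¬ CommonSide A B C P Q ∧ ℓ = line[ℝ, P, Q]}

/-- the number of lines of `WS_d` through the point `p` -/
noncomputable def concurrency (d : ℕ) (A B C p : Plane) : ℕ∞ :=
  {ℓ ∈ wsLines d A B C | p ∈ ℓ}.encard

/-- the largest number of lines of `WS_d` through an interior point of the triangle -/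
noncomputable def mu (d : ℕ) (A B C : Plane) : ℕ∞ :=
  ⨆ p ∈ interior (convexHull ℝ {A, B, C}), concurrency d A B C p

theorem divPts_subset_segment {d : ℕ} {P Q X : Plane} (hd : 0 < d) (h : X ∈ divPts d P Q) :
    X ∈ segment ℝ P Q := by
  obtain ⟨i, hi, rfl⟩ := h
  rw [segment_eq_image_lineMap]
  refine ⟨(i : ℝ) / d, ⟨by positivity, ?_⟩, rfl⟩
  rw [div_le_one (by exact_mod_cast hd)]
  exact_mod_cast hi

theorem divPts_comm {d : ℕ} {P Q : Plane} (hd : 0 < d) : divPts d P Q = divPts d Q P := by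
  have key : ∀ P Q : Plane, divPts d P Q ⊆ divPts d Q P := by
    rintro P Q X ⟨i, hi, rfl⟩
    refine ⟨d - i, by omega, ?_⟩
    have hd0 : (d:ℝ) ≠ 0 := by exact_mod_cast hd.ne'
    rw [Nat.cast_sub hi, sub_div, div_self hd0, lineMap_apply_one_sub]
  exact Set.Subset.antisymm (key P Q) (key Q P)

/-- data of a corner: `cY`, `cZ` are the barycentric coordinates of `Y` and `Z` -/
theorem corner {d : ℕ} {X Y Z p : Plane} (hd : 0 < d) (cY cZ : Plane →ᵃ[ℝ] ℝ)
    (hYX : cY X = 0) (hYY : cY Y = 1) (hYZ : cY Z = 0) (hZX : cZ X = 0) (hZY : cZ Y = 0)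
    (hZZ : cZ Z = 1) (hpY : 0 < cY p) (hpZ : 0 < cZ p) {i j : ℕ} (hi : i ≤ d) (hj : j ≤ d)
    (hp : p ∈ line[ℝ, lineMap X Y ((i : ℝ) / d), lineMap X Z ((j : ℝ) / d)]) :
    (i, j) ∈ S d (d * cY p) (d * cZ p) := by
  have hd0 : (0:ℝ) < d := by exact_mod_cast hd
  obtain ⟨t, rfl⟩ := mem_affineSpan_pair_iff_exists_lineMap_eq.1 hp
  have e1 : cY (lineMap (lineMap X Y ((i : ℝ) / d)) (lineMap X Z ((j : ℝ) / d)) t) =
      (1 - t) * (i / d) := by
    simp only [apply_lineMap, hYX, hYY, hYZ]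
    simp only [lineMap_apply_module, smul_eq_mul]
    ring
  have e2 : cZ (lineMap (lineMap X Y ((i : ℝ) / d)) (lineMap X Z ((j : ℝ) / d)) t) =
      t * (j / d) := by
    simp only [apply_lineMap, hZX, hZY, hZZ]
    simp only [lineMap_apply_module, smul_eq_mul]
    ring
  rw [e1] at hpY ⊢
  rw [e2] at hpZ ⊢
  have hi0 : i ≠ 0 := by
    rintro rfl
    simp at hpY
  have hj0 : j ≠ 0 := by
    rintro rfl
    simp at hpZ
  have hi' : (i:ℝ) ≠ 0 := by exact_mod_cast hi0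
  have hj' : (j:ℝ) ≠ 0 := by exact_mod_cast hj0
  refine mem_S.2 ⟨⟨Nat.one_le_iff_ne_zero.2 hi0, hi⟩, ⟨Nat.one_le_iff_ne_zero.2 hj0, hj⟩, ?_⟩
  simp only
  field_simp
  ring

/-- the line of the corner `X` with parameters `i`, `j` -/
noncomputable def gl (d : ℕ) (X Y Z : Plane) (i j : ℕ) : AffineSubspace ℝ Plane :=
  line[ℝ, lineMap X Y ((i : ℝ) / d), lineMap X Z ((j : ℝ) / d)]

theorem gl_left {d : ℕ} {X Y Z p : Plane} (hd : 0 < d) {j : ℕ} (hp : p ∈ gl d X Y Z d j)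
    (hpY : p ≠ Y) : gl d X Y Z d j = line[ℝ, Y, p] := by
  have hd0 : (d:ℝ) ≠ 0 := by exact_mod_cast hd.ne'
  unfold gl at hp ⊢
  rw [div_self hd0, lineMap_apply_one] at hp ⊢
  exact (affineSpan_pair_eq_of_mem_of_mem_of_ne (left_mem_affineSpan_pair _ _ _) hp hpY.symm).symm

theorem gl_right {d : ℕ} {X Y Z p : Plane} (hd : 0 < d) {i : ℕ} (hp : p ∈ gl d X Y Z i d)
    (hpZ : p ≠ Z) : gl d X Y Z i d = line[ℝ, Z, p] := by
  have hd0 : (d:ℝ) ≠ 0 := by exact_mod_cast hd.ne'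
  unfold gl at hp ⊢
  rw [div_self hd0, lineMap_apply_one] at hp ⊢
  exact (affineSpan_pair_eq_of_mem_of_mem_of_ne (right_mem_affineSpan_pair _ _ _) hp hpZ.symm).symm

theorem mem_S' {d : ℕ} {x y : ℝ} {i j : ℕ} (h : (i, j) ∈ S d x y) (hi : i ≠ d) (hj : j ≠ d) :
    (i, j) ∈ S (d - 1) x y := by
  obtain ⟨⟨h1, h2⟩, ⟨h3, h4⟩, h5⟩ := mem_S.1 h
  simp only at h1 h2 h3 h4 h5
  exact mem_S.2 ⟨⟨h1, by simp only; omega⟩, ⟨h3, by simp only; omega⟩, h5⟩

/-- the vertex line, if present -/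
def vl (P : Prop) (X p : Plane) : Set (AffineSubspace ℝ Plane) := {ℓ | P ∧ ℓ = line[ℝ, X, p]}

open Classical in
theorem card_vl (P : Prop) (X p : Plane) : (vl P X p).encard ≤ ((if P then 1 else 0 : ℕ) : ℕ∞) := by
  by_cases hP : P
  · rw [if_pos hP]
    have : vl P X p ⊆ {line[ℝ, X, p]} := fun ℓ hℓ => hℓ.2
    exact (Set.encard_le_encard this).trans (by simp)
  · have : vl P X p = ∅ := by
      ext ℓ
      exact ⟨fun h => absurd h.1 hP, fun h => absurd h (Set.notMem_empty _)⟩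
    rw [this]
    simp

theorem mem_vl {P : Prop} {X p : Plane} (h : P) : line[ℝ, X, p] ∈ vl P X p := ⟨h, rfl⟩

/-- the lines of a corner through `p` which miss the other two vertices -/
def cl (d : ℕ) (X Y Z : Plane) (x y : ℝ) : Set (AffineSubspace ℝ Plane) :=
  (fun q : ℕ × ℕ => gl d X Y Z q.1 q.2) '' (S (d - 1) x y : Set (ℕ × ℕ))

theorem card_cl (d : ℕ) (X Y Z : Plane) (x y : ℝ) :
    (cl d X Y Z x y).encard ≤ ((S (d - 1) x y).card : ℕ∞) := by
  unfold cl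
  refine (Set.encard_image_le _ _).trans ?_
  rw [Set.encard_coe_eq_coe_finsetCard]

theorem corner_one {d : ℕ} {X Y Z p : Plane} {x y : ℝ} (hd : 0 < d) (hY : p ≠ Y)
    {i j : ℕ} (h : p ∈ gl d X Y Z i j) (hS : (i, j) ∈ S d x y) (h1 : i = d) :
    ((∃ k, (d, k) ∈ S d x y) ∧ gl d X Y Z i j = line[ℝ, Y, p]) := by
  refine ⟨⟨j, by rw [← h1] at hS ⊢; exact hS⟩, ?_⟩
  rw [h1] at h ⊢
  exact gl_left hd h hY

theorem corner_two {d : ℕ} {X Y Z p : Plane} {x y : ℝ} (hd : 0 < d) (hZ : p ≠ Z)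
    {i j : ℕ} (h : p ∈ gl d X Y Z i j) (hS : (i, j) ∈ S d x y) (h1 : j = d) :
    ((∃ k, (d, k) ∈ S d y x) ∧ gl d X Y Z i j = line[ℝ, Z, p]) := by
  refine ⟨⟨i, by rw [← h1] at hS ⊢; exact S_swap.1 hS⟩, ?_⟩
  rw [h1] at h ⊢
  exact gl_right hd h hZ

/-- one corner -/
theorem corner_cases {d : ℕ} {X Y Z p : Plane} {x y : ℝ} (hd : 0 < d) (hY : p ≠ Y) (hZ : p ≠ Z)
    {i j : ℕ} (h : p ∈ gl d X Y Z i j) (hS : (i, j) ∈ S d x y) :
    (gl d X Y Z i j ∈ cl d X Y Z x y) ∨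
    ((∃ k, (d, k) ∈ S d x y) ∧ gl d X Y Z i j = line[ℝ, Y, p]) ∨
    ((∃ k, (d, k) ∈ S d y x) ∧ gl d X Y Z i j = line[ℝ, Z, p]) := by
  by_cases h1 : i = d
  · exact Or.inr (Or.inl (corner_one hd hY h hS h1))
  by_cases h2 : j = d
  · exact Or.inr (Or.inr (corner_two hd hZ h hS h2))
  exact Or.inl ⟨(i, j), mem_S' hS h1 h2, rfl⟩

/-- all the lines through `p` -/
def allLines (d : ℕ) (A B C p : Plane) (u v w : ℝ) : Set (AffineSubspace ℝ Plane) :=
  cl d A B C u v ∪ cl d B A C w v ∪ cl d C A B w u ∪ vl (∃ j, (d, j) ∈ S d w v) A p ∪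
    vl (∃ j, (d, j) ∈ S d u v) B p ∪ vl (∃ j, (d, j) ∈ S d v u) C p

theorem mem_allLines {d : ℕ} {A B C p : Plane} {u v w : ℝ} {ℓ : AffineSubspace ℝ Plane} :
    ℓ ∈ allLines d A B C p u v w ↔ ((((ℓ ∈ cl d A B C u v ∨ ℓ ∈ cl d B A C w v) ∨
      ℓ ∈ cl d C A B w u) ∨ ℓ ∈ vl (∃ j, (d, j) ∈ S d w v) A p) ∨
      ℓ ∈ vl (∃ j, (d, j) ∈ S d u v) B p) ∨ ℓ ∈ vl (∃ j, (d, j) ∈ S d v u) C p := Iff.rfl

theorem card_allLines {d : ℕ} {A B C p : Plane} {u v w : ℝ} (hu : 0 < u) (hv : 0 < v)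
    (hw : 0 < w) (hs : u + v + w = d) : (allLines d A B C p u v w).encard ≤ (d + 1 : ℕ) := by
  classical
  have total := total_bound (d := d) hu hv hw hs
  refine le_trans ?_ (Nat.cast_le.2 total)
  push_cast only [Nat.cast_add]
  unfold allLines
  refine (Set.encard_union_le _ _).trans (add_le_add ?_ (card_vl _ _ _))
  refine (Set.encard_union_le _ _).trans (add_le_add ?_ (card_vl _ _ _))
  refine (Set.encard_union_le _ _).trans (add_le_add ?_ (card_vl _ _ _))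
  refine (Set.encard_union_le _ _).trans (add_le_add ?_ (card_cl _ _ _ _ _ _))
  exact (Set.encard_union_le _ _).trans (add_le_add (card_cl _ _ _ _ _ _)
    (card_cl _ _ _ _ _ _))

/-- every line of the split through `p` belongs to `allLines` -/
theorem in_allLines {d : ℕ} {A B C p : Plane} (hd : 0 < d) (cA cB cC : Plane →ᵃ[ℝ] ℝ)
    (AA : cA A = 1) (AB : cA B = 0) (AC : cA C = 0) (BA : cB A = 0) (BB : cB B = 1)
    (BC : cB C = 0) (CA : cC A = 0) (CB : cC B = 0) (CC : cC C = 1)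
    (pA : 0 < cA p) (pB : 0 < cB p) (pC : 0 < cC p) (hsum : cA p + cB p + cC p = 1)
    {ℓ : AffineSubspace ℝ Plane} (hℓ : ℓ ∈ wsLines d A B C) (hp : p ∈ ℓ) :
    ℓ ∈ allLines d A B C p (d * cB p) (d * cC p) (d * cA p) := by
  have hd0 : (0:ℝ) < d := by exact_mod_cast hd
  have npA : p ≠ A := by rintro rfl; linarith
  have npB : p ≠ B := by rintro rfl; linarith
  have npC : p ≠ C := by rintro rfl; linarith
  have hu0 : 0 < d * cB p := by positivity
  have hv0 : 0 < d * cC p := by positivity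
  have hw0 : 0 < d * cA p := by positivity
  have hs : d * cB p + d * cC p + d * cA p = d := by
    rw [← mul_add, ← mul_add, show cB p + cC p + cA p = 1 by linarith, mul_one]
  -- the three corners
  have iA : ∀ i j : ℕ, i ≤ d → j ≤ d → p ∈ gl d A B C i j →
      gl d A B C i j ∈ allLines d A B C p (d * cB p) (d * cC p) (d * cA p) := by
    intro i j hi hj h
    have hS := corner hd cB cC BA BB BC CA CB CC pB pC hi hj h
    rw [mem_allLines]
    rcases corner_cases hd npB npC h hS with h1 | ⟨h1, h2⟩ | ⟨h1, h2⟩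
    · exact Or.inl (Or.inl (Or.inl (Or.inl (Or.inl h1))))
    · rw [h2]; exact Or.inl (Or.inr (mem_vl h1))
    · rw [h2]; exact Or.inr (mem_vl h1)
  have iB : ∀ i j : ℕ, i ≤ d → j ≤ d → p ∈ gl d B A C i j →
      gl d B A C i j ∈ allLines d A B C p (d * cB p) (d * cC p) (d * cA p) := by
    intro i j hi hj h
    have hS := corner hd cA cC AB AA AC CB CA CC pA pC hi hj h
    rw [mem_allLines]
    rcases corner_cases hd npA npC h hS with h1 | ⟨h1, h2⟩ | ⟨h1, h2⟩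
    · exact Or.inl (Or.inl (Or.inl (Or.inl (Or.inr h1))))
    · rw [h2]; exact Or.inl (Or.inl (Or.inr (mem_vl h1)))
    · rw [h2]; exact Or.inr (mem_vl ((flag_iff hv0 hu0 hw0 (by linarith)).2 h1))
  have iC : ∀ i j : ℕ, i ≤ d → j ≤ d → p ∈ gl d C A B i j →
      gl d C A B i j ∈ allLines d A B C p (d * cB p) (d * cC p) (d * cA p) := by
    intro i j hi hj h
    have hS := corner hd cA cB AC AA AB BC BA BB pA pB hi hj h
    rw [mem_allLines]
    rcases corner_cases hd npA npB h hS with h1 | ⟨h1, h2⟩ | ⟨h1, h2⟩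
    · exact Or.inl (Or.inl (Or.inl (Or.inr h1)))
    · rw [h2]
      exact Or.inl (Or.inl (Or.inr (mem_vl ((flag_iff hw0 hu0 hv0 (by linarith)).1 h1))))
    · rw [h2]; exact Or.inl (Or.inr (mem_vl ((flag_iff hu0 hv0 hw0 hs).2 h1)))
  -- two marked points on different sides
  have pair_AB_BC : ∀ P ∈ divPts d A B, ∀ Q ∈ divPts d B C, p ∈ line[ℝ, P, Q] →
      line[ℝ, P, Q] ∈ allLines d A B C p (d * cB p) (d * cC p) (d * cA p) := by
    intro P hP Q hQ h
    rw [divPts_comm hd] at hP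
    obtain ⟨i, hi, rfl⟩ := hP
    obtain ⟨j, hj, rfl⟩ := hQ
    exact iB i j hi hj h
  have pair_CA_AB : ∀ P ∈ divPts d C A, ∀ Q ∈ divPts d A B, p ∈ line[ℝ, P, Q] →
      line[ℝ, P, Q] ∈ allLines d A B C p (d * cB p) (d * cC p) (d * cA p) := by
    intro P hP Q hQ h
    rw [divPts_comm hd] at hP
    obtain ⟨i, hi, rfl⟩ := hP
    obtain ⟨j, hj, rfl⟩ := hQ
    rw [Set.pair_comm] at h ⊢
    exact iA j i hj hi h
  have pair_BC_CA : ∀ P ∈ divPts d B C, ∀ Q ∈ divPts d C A, p ∈ line[ℝ, P, Q] →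
      line[ℝ, P, Q] ∈ allLines d A B C p (d * cB p) (d * cC p) (d * cA p) := by
    intro P hP Q hQ h
    rw [divPts_comm hd] at hP
    obtain ⟨i, hi, rfl⟩ := hP
    obtain ⟨j, hj, rfl⟩ := hQ
    rw [Set.pair_comm] at h ⊢
    exact iC j i hj hi h
  obtain ⟨P, hP, Q, hQ, hcs, rfl⟩ := hℓ
  have sAB : ∀ {X}, X ∈ divPts d A B → X ∈ segment ℝ A B := divPts_subset_segment hd
  have sBC : ∀ {X}, X ∈ divPts d B C → X ∈ segment ℝ B C := divPts_subset_segment hd
  have sCA : ∀ {X}, X ∈ divPts d C A → X ∈ segment ℝ C A := divPts_subset_segment hd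
  have hpl' : p ∈ line[ℝ, Q, P] := by rw [Set.pair_comm]; exact hp
  have hcomm : line[ℝ, P, Q] = line[ℝ, Q, P] := by rw [Set.pair_comm]
  rcases hP with (hP | hP) | hP <;> rcases hQ with (hQ | hQ) | hQ
  · exact absurd (Or.inl ⟨sAB hP, sAB hQ⟩) hcs
  · exact pair_AB_BC P hP Q hQ hp
  · rw [hcomm]; exact pair_CA_AB Q hQ P hP hpl'
  · rw [hcomm]; exact pair_AB_BC Q hQ P hP hpl'
  · exact absurd (Or.inr (Or.inl ⟨sBC hP, sBC hQ⟩)) hcs
  · exact pair_BC_CA P hP Q hQ hp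
  · exact pair_CA_AB P hP Q hQ hp
  · rw [hcomm]; exact pair_BC_CA Q hQ P hP hpl'
  · exact absurd (Or.inr (Or.inr ⟨sCA hP, sCA hQ⟩)) hcs

/-- barycentric coordinates -/
theorem exists_coords {A B C : Plane} (hABC : AffineIndependent ℝ ![A, B, C]) :
    ∃ cA cB cC : Plane →ᵃ[ℝ] ℝ, (cA A = 1 ∧ cA B = 0 ∧ cA C = 0) ∧
      (cB A = 0 ∧ cB B = 1 ∧ cB C = 0) ∧ (cC A = 0 ∧ cC B = 0 ∧ cC C = 1) ∧
      (∀ p, cA p + cB p + cC p = 1) ∧
      ∀ p ∈ interior (convexHull ℝ {A, B, C}), 0 < cA p ∧ 0 < cB p ∧ 0 < cC p := by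
  have htop : affineSpan ℝ (Set.range ![A, B, C]) = ⊤ := by
    rw [hABC.affineSpan_eq_top_iff_card_eq_finrank_add_one]
    simp
  obtain ⟨b, bA, bB, bC⟩ : ∃ b : AffineBasis (Fin 3) ℝ Plane, b 0 = A ∧ b 1 = B ∧ b 2 = C :=
    ⟨⟨![A, B, C], hABC, htop⟩, rfl, rfl, rfl⟩
  have hrange : Set.range b = {A, B, C} := by
    ext x
    constructor
    · rintro ⟨i, rfl⟩
      fin_cases i
      · exact Or.inl bA
      · exact Or.inr (Or.inl bB)
      · exact Or.inr (Or.inr bC)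
    · rintro (rfl | rfl | rfl)
      · exact ⟨0, bA⟩
      · exact ⟨1, bB⟩
      · exact ⟨2, bC⟩
  refine ⟨b.coord 0, b.coord 1, b.coord 2, ⟨?_, ?_, ?_⟩, ⟨?_, ?_, ?_⟩, ⟨?_, ?_, ?_⟩, ?_, ?_⟩
  · rw [← bA]; exact b.coord_apply_eq 0
  · rw [← bB]; exact b.coord_apply_ne (by decide)
  · rw [← bC]; exact b.coord_apply_ne (by decide)
  · rw [← bA]; exact b.coord_apply_ne (by decide)
  · rw [← bB]; exact b.coord_apply_eq 1
  · rw [← bC]; exact b.coord_apply_ne (by decide)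
  · rw [← bA]; exact b.coord_apply_ne (by decide)
  · rw [← bB]; exact b.coord_apply_ne (by decide)
  · rw [← bC]; exact b.coord_apply_eq 2
  · intro p
    have hsum := b.sum_coord_apply_eq_one p
    rw [Fin.sum_univ_three] at hsum
    exact hsum
  · intro p hp
    rw [← hrange, b.interior_convexHull] at hp
    exact ⟨hp 0, hp 1, hp 2⟩

/-- every interior point lies on at most `d + 1` lines -/
theorem main {A B C p : Plane} (hABC : AffineIndependent ℝ ![A, B, C]) {d : ℕ} (hd : 2 ≤ d)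
    (hp : p ∈ interior (convexHull ℝ {A, B, C})) : concurrency d A B C p ≤ d + 1 := by
  have hd1 : 0 < d := by omega
  have hd0 : (0:ℝ) < d := by exact_mod_cast hd1
  obtain ⟨cA, cB, cC, ⟨AA, AB, AC⟩, ⟨BA, BB, BC⟩, ⟨CA, CB, CC⟩, hsum, hpos⟩ :=
    exists_coords hABC
  obtain ⟨pA, pB, pC⟩ := hpos p hp
  have hs := hsum p
  have hsub : {ℓ ∈ wsLines d A B C | p ∈ ℓ} ⊆
      allLines d A B C p (d * cB p) (d * cC p) (d * cA p) :=
    fun ℓ hℓ => in_allLines hd1 cA cB cC AA AB AC BA BB BC CA CB CC pA pB pC hs hℓ.1 hℓ.2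
  have hcard : (allLines d A B C p (d * cB p) (d * cC p) (d * cA p)).encard ≤ (d + 1 : ℕ) := by
    refine card_allLines (by positivity) (by positivity) (by positivity) ?_
    rw [← mul_add, ← mul_add, show cB p + cC p + cA p = 1 by linarith, mul_one]
  calc concurrency d A B C p
      ≤ (allLines d A B C p (d * cB p) (d * cC p) (d * cA p)).encard :=
        Set.encard_le_encard hsub
    _ ≤ ((d + 1 : ℕ) : ℕ∞) := hcard
    _ = d + 1 := by push_cast; rfl

/-- For every triangle and every `d ≥ 2`, the maximal number of lines of the Wang–Shi split through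
an interior point of the triangle is at most `d + 1`. -/
theorem result (A B C : Plane) (hABC : AffineIndependent ℝ ![A, B, C]) (d : ℕ) (hd : 2 ≤ d) :
    mu d A B C ≤ d + 1 :=
  iSup₂_le fun _ hp => main hABC hd hp

end Pool.Agent.Results.MP_e74ad6_co.WangShiConcurrency
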